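import Pool.Agent.ATW.Stmts
import Pool.Agent.Helper53_AT2.FN2

/-!
# Squad ATW, row FNZ: the final theorem for the prime `ℓ`, from the theorem for block idempotents
-/

open scoped BigOperators

noncomputable section

namespace Pool.Agent.PP.TW.H74

open Pool.Agent.Helper51_AWC Pool.Agent.Helper79_WRA Pool.Agent.PP Pool.Agent.PP.KF
open Pool.Agent.PP.K9 Pool.Agent.PP.K9.H97 Pool.Agent.PP.H75 Pool.Agent.PP.T3

attribute [local instance] Ideal.Quotient.field

/-- FNZ -/
theorem fnz (hDZA : T2.DzaStmt) : FnzStmt := by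
  classical
  intro ℓ hfact hTt M _ hM G _ _ hc χ hχ D hD hcomm A _ _ p hsurj hker a ha hexp hgen
  have hℓ : ℓ.Prime := hfact.out
  have hF : GoodF ℓ (FF M) := H50.fld ℓ hℓ M hM
  have hn : (opCore ℓ G).Normal := H75.opCore_normal (A := G) ℓ
  obtain ⟨e, he, h1, h2⟩ := H50.bid ℓ hℓ M hM G χ hχ
  have hkp : IsPGroup ℓ p.ker := by
    rw [hker]
    exact H75.opCore_isPGroup hℓ
  have hkc : p.ker ≤ Subgroup.center G := by
    rw [hker]
    exact hc
  obtain ⟨hblk, -, -, γ, hL⟩ := hDZA ℓ M hM G hc χ hχ D hD hcomm e he h1 A p hsurj hker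
  have heq := H75.altSum_central H20.nls H20.brm H63.smt H94.nch
    (H50.dic H20.ibn H20.nls H20.brm) hℓ M hM hF hsurj hker hkp hkc χ hχ e he h1 h2
  have h0 : YY ℓ (⊤ : Subgroup A) (push p e) = 0 :=
    hTt M hM a ha A (push p e) (D.map p) γ hL hexp hgen
  rw [h0, mul_zero] at heq
  rcases mul_eq_zero.1 heq with h | h
  · exact absurd h (by exact_mod_cast (Nat.card_pos (α := G)).ne')
  · exact h

end Pool.Agent.PP.TW.H74
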